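import Mathlib

set_option autoImplicit false
open Set Filter Topology Metric Real InnerProductSpace MeasureTheory
open scoped ENNReal

namespace Pool.Agent.Results.MP_784777_an.No

/-- Subharmonic on `Ω`, values in `[-∞, ∞)`. -/
def Sub (u : ℂ → EReal) (Ω : Set ℂ) : Prop :=
  UpperSemicontinuousOn u Ω ∧ (∀ z ∈ Ω, u z ≠ ⊤) ∧ ∀ z ∈ Ω, ∃ ε > (0 : ℝ), ∀ s ∈ Ioo 0 ε, ∀ M : ℝ,
    (∀ θ, u (circleMap z s θ) ≤ M) → u z ≤ M - (((ENNReal.ofReal (2 * π))⁻¹ *
      ∫⁻ θ in Ioc 0 (2 * π), (M - u (circleMap z s θ)).toENNReal : ℝ≥0∞) : EReal)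

def InU (ρ : ℝ) (v : ℂ → EReal) : Prop :=
  Sub v univ ∧ v 0 = 0 ∧ ∃ σ > (0 : ℝ), ∀ z, v z ≤ (σ * ‖z‖ ^ ρ : ℝ)

def Minimal (ρ : ℝ) (v : ℂ → EReal) : Prop :=
  ∀ ε > (0 : ℝ), ¬ ∃ w, InU ρ w ∧ ∀ z, w z ≤ v z - (ε * ‖z‖ ^ ρ : ℝ)

/-- The largest open set where `v` is harmonic. -/
def HSet (v : ℂ → EReal) : Set ℂ := {z | ∃ h : ℂ → ℝ, HarmonicAt h z ∧ ∀ᶠ w in 𝓝 z, v w = h w}

/-- Regular boundary point: a barrier exists. -/
def Regular (D : Set ℂ) (q : ℂ) : Prop :=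
  ∃ N, IsOpen N ∧ q ∈ N ∧ ∃ b, Sub b (D ∩ N) ∧ (∀ p ∈ D ∩ N, b p < 0) ∧ Tendsto b (𝓝[D] q) (𝓝 0)

def Sol (l : ℝ) (D : Set ℂ) (r : ℂ → ℝ) : Prop :=
  Function.Periodic r (2 * π * Complex.I) ∧ (∃ C, ∀ p ∈ D, |r p| ≤ C) ∧
    (∀ p ∈ D, HarmonicAt (fun p => exp (l * p.re) * r p) p) ∧
    ∀ q ∈ frontier D, Regular D q → Tendsto r (𝓝[D] q) (𝓝 0)

noncomputable def lam (D : Set ℂ) : EReal :=
  ⨅ (l : ℝ) (_ : 0 < l) (_ : ∃ r, Sol l D r ∧ ∃ p ∈ D, r p ≠ 0), (l : EReal)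

lemma subR {U : ℂ → ℝ} (hc : Continuous U) {Ω : Set ℂ}
    (h : ∀ z ∈ Ω, ∃ ε > (0 : ℝ), ∀ s ∈ Ioo 0 ε, U z ≤ circleAverage U z s) : Sub (fun z => U z) Ω := by
  refine ⟨(continuous_coe_real_ereal.comp hc).upperSemicontinuous.upperSemicontinuousOn _,
    fun z _ => EReal.coe_ne_top _, fun z hz => (h z hz).imp fun ε k => ⟨k.1, fun s hs M hM => ?_⟩⟩
  have av := k.2 s hs
  have p := pi_pos
  have i : IntervalIntegrable (fun θ => U (circleMap z s θ)) volume 0 (2 * π) :=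
    Continuous.intervalIntegrable (by fun_prop) _ _
  have nn (θ : ℝ) : 0 ≤ M - U (circleMap z s θ) := sub_nonneg.2 (EReal.coe_le_coe_iff.1 (hM θ))
  have n2 : 0 ≤ ∫ θ in (0 : ℝ)..2 * π, (M - U (circleMap z s θ)) :=
    intervalIntegral.integral_nonneg (by positivity) fun θ _ => nn θ
  simp only [← EReal.coe_sub, EReal.real_coe_toENNReal]
  rw [← ofReal_integral_eq_lintegral_ofReal (intervalIntegrable_const.sub i).1 (Eventually.of_forall nn),
    ← intervalIntegral.integral_of_le (by positivity), ← ENNReal.ofReal_inv_of_pos (by positivity),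
    ← ENNReal.ofReal_mul (by positivity), EReal.coe_ennreal_ofReal, max_eq_left (by positivity),
    ← EReal.coe_sub, EReal.coe_le_coe_iff, intervalIntegral.integral_sub intervalIntegrable_const i,
    intervalIntegral.integral_const, sub_zero, smul_eq_mul, mul_sub, inv_mul_cancel_left₀ (by positivity)]
  rw [circleAverage, smul_eq_mul] at av
  linarith

lemma mv {T : ℂ → ℝ} {z : ℂ} (h : HarmonicAt T z) {P : ℂ → Prop} (hP : ∀ᶠ w in 𝓝 z, P w) :
    ∃ ε > (0 : ℝ), ∀ s ∈ Ioo 0 ε, circleAverage T z s = T z ∧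
      ∀ θ, ContinuousAt T (circleMap z s θ) ∧ P (circleMap z s θ) := by
  obtain ⟨ε, e0, hε⟩ := Metric.eventually_nhds_iff.1 (h.eventually.and hP)
  refine ⟨ε, e0, fun s hs => ⟨HarmonicOnNhd.circleAverage_eq fun w hw => (hε ?_).1, fun θ => ?_⟩⟩
  · rw [abs_of_pos hs.1] at hw; exact lt_of_le_of_lt hw hs.2
  · have := hε (y := circleMap z s θ) (by rw [circleMap_mem_sphere z hs.1.le θ]; exact hs.2)
    exact ⟨this.1.1.continuousAt, this.2⟩

lemma noharm {u : ℂ → ℝ} {z : ℂ} (h : HarmonicAt u z) (h0 : ∀ᶠ w in 𝓝 z, 0 ≤ u w) (hz : u z = 0) :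
    ∀ᶠ w in 𝓝 z, u w ≤ 0 := by
  obtain ⟨ε, e0, hε⟩ := mv h h0
  filter_upwards [ball_mem_nhds z e0] with w hw
  by_contra! c
  have s0 : 0 < dist w z := dist_pos.2 fun k => by simp [k, hz] at c
  obtain ⟨a, b⟩ := hε _ ⟨s0, hw⟩
  obtain ⟨θ, hθ, e⟩ : w ∈ circleMap z (dist w z) '' Ioc 0 (2 * π) := by
    rw [image_circleMap_Ioc, abs_of_pos s0]; rfl
  have := intervalIntegral.integral_lt_integral_of_continuousOn_of_le_of_exists_lt two_pi_pos
    (f := fun _ => 0) (g := fun θ => u (circleMap z (dist w z) θ)) continuousOn_const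
    (fun θ _ => ((b θ).1.comp (continuous_circleMap _ _).continuousAt).continuousWithinAt)
    (fun θ _ => (b θ).2) ⟨θ, Ioc_subset_Icc_self hθ, by simpa [e]⟩
  rw [circleAverage, hz, smul_eq_mul, mul_eq_zero] at a
  simp [a.resolve_left (by simp [pi_ne_zero])] at this

noncomputable def V (ρ : ℝ) (z : ℂ) : ℝ := max (‖z‖ ^ ρ - 1) 0

noncomputable def T (ρ : ℝ) (z w : ℂ) : ℝ := ‖z‖ ^ ρ * (1 + ρ * (log ‖w‖ - log ‖z‖)) - 1

lemma Th (ρ : ℝ) {z : ℂ} (hz : z ≠ 0) : HarmonicAt (T ρ z) z := by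
  have := ((analyticAt_id.harmonicAt_log_norm hz).const_smul (c := ‖z‖ ^ ρ * ρ)).add
    (harmonicAt_const (‖z‖ ^ ρ * (1 - ρ * log ‖z‖) - 1))
  convert this using 1
  ext w; simp [T]; ring

lemma Tlt {ρ : ℝ} (h : 0 < ρ) {z w : ℂ} (hz : z ≠ 0) (hw : w ≠ 0) :
    T ρ z w ≤ V ρ w ∧ (‖w‖ ≠ ‖z‖ → T ρ z w < V ρ w) := by
  have z0 := norm_pos_iff.2 hz
  have w0 := norm_pos_iff.2 hw
  have e : ‖w‖ ^ ρ = ‖z‖ ^ ρ * exp (ρ * (log ‖w‖ - log ‖z‖)) := by
    rw [rpow_def_of_pos z0, rpow_def_of_pos w0, ← exp_add]; congr 1; ring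
  have p := rpow_pos_of_pos z0 ρ
  refine ⟨le_max_of_le_left ?_, fun k => lt_max_of_lt_left ?_⟩
  · rw [e, T, add_comm]; gcongr; exact add_one_le_exp _
  · rw [e, T, add_comm]; gcongr
    exact add_one_lt_exp (mul_ne_zero h.ne' (sub_ne_zero.2 fun c => k (log_injOn_pos w0 z0 c)))

lemma TV {ρ : ℝ} (h : 0 < ρ) {z : ℂ} (hz : 1 ≤ ‖z‖) : T ρ z z = V ρ z := by
  simp [T, V, one_le_rpow hz h.le]

lemma V0 {ρ : ℝ} (h : 0 < ρ) {z : ℂ} (hz : ‖z‖ ≤ 1) : V ρ z = 0 := by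
  simp [V, rpow_le_one (norm_nonneg _) hz h.le]

lemma Vc {ρ : ℝ} (h : 0 < ρ) : Continuous (V ρ) :=
  (((continuous_rpow_const h.le).comp continuous_norm).sub continuous_const).max continuous_const

lemma VU {ρ : ℝ} (h : 0 < ρ) : InU ρ fun z => V ρ z := by
  refine ⟨subR (Vc h) fun z _ => ?_, by simp [V0 h], 1, one_pos, fun z => EReal.coe_le_coe_iff.2
    (max_le (by linarith) (by positivity))⟩
  rcases le_total ‖z‖ 1 with c | c
  · exact ⟨1, one_pos, fun s _ => V0 h c ▸ circleAverage_nonneg_of_nonneg fun w _ => le_max_right _ _⟩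
  have z0 : z ≠ 0 := norm_pos_iff.1 (by linarith)
  obtain ⟨ε, e0, hε⟩ := mv (Th ρ z0) (eventually_ne_nhds z0)
  refine ⟨ε, e0, fun s hs => ?_⟩
  rw [← TV h c, ← (hε s hs).1]
  have m (w : ℂ) (hw : w ∈ sphere z |s|) : ContinuousAt (T ρ z) w ∧ w ≠ 0 := by
    rw [← range_circleMap] at hw
    obtain ⟨θ, rfl⟩ := hw
    exact (hε s hs).2 θ
  exact circleAverage_mono (ContinuousOn.circleIntegrable' fun w hw => (m w hw).1.continuousWithinAt)
    (Vc h).continuousOn.circleIntegrable' fun w hw => (Tlt h z0 (m w hw).2).1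

lemma VH {ρ : ℝ} (h : 0 < ρ) : HSet (fun z => V ρ z) = ball 0 1 := by
  ext z
  refine ⟨fun ⟨g, hg, e⟩ => ?_, fun hz => ⟨fun _ => 0, harmonicAt_const 0,
    (isOpen_ball.eventually_mem hz).mono fun w hw => congrArg _ (V0 h (mem_ball_zero_iff.1 hw).le)⟩⟩
  by_contra! c
  rw [mem_ball_zero_iff, not_lt] at c
  have z0 : z ≠ 0 := norm_pos_iff.1 (by linarith)
  simp only [EReal.coe_eq_coe_iff] at e
  have := noharm (hg.sub (Th ρ z0)) ((e.and (eventually_ne_nhds z0)).mono fun w hw => by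
    rw [Pi.sub_apply, ← hw.1]; exact sub_nonneg.2 (Tlt h z0 hw.2).1) (by
    rw [Pi.sub_apply, ← e.self_of_nhds, TV h c, sub_self])
  have t : Tendsto (fun t : ℝ => t • z) (𝓝[>] 1) (𝓝 z) :=
    (Continuous.tendsto' (by fun_prop) _ _ (by simp)).mono_left nhdsWithin_le_nhds
  obtain ⟨s, ⟨⟨a, b⟩, d⟩, s1⟩ :=
    ((t.eventually ((this.and e).and (eventually_ne_nhds z0))).and eventually_mem_nhdsWithin).exists
  have := (Tlt h z0 d).2 (by
    rw [norm_smul, norm_of_nonneg (zero_le_one.trans (le_of_lt s1))]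
    exact (lt_mul_of_one_lt_left (by linarith) s1).ne')
  rw [Pi.sub_apply, ← b] at a
  linarith

lemma maxp {l : ℝ} (l0 : 0 < l) {r : ℂ → ℝ} (hp : Function.Periodic r (2 * π * Complex.I)) {C : ℝ}
    (hC : ∀ p : ℂ, p.re < 0 → r p ≤ C) (hh : ∀ p : ℂ, p.re < 0 → HarmonicAt (fun p => exp (l * p.re) * r p) p)
    (hb : ∀ q : ℂ, q.re = 0 → Tendsto r (𝓝[{p | p.re < 0}] q) (𝓝 0)) {p₀ : ℂ} (h0 : p₀.re < 0) :
    r p₀ ≤ 0 := by
  by_contra! c
  set ε := exp (l * p₀.re) * r p₀ / 2 with hε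
  have e0 : 0 < ε := by positivity
  set G : ℂ → ℝ := fun p => (if p.re < 0 then exp (l * p.re) * r p else 0) + ε * exp p.re with hG
  have o : IsOpen {p : ℂ | p.re < 0} := isOpen_lt (by fun_prop) continuous_const
  have Ge (p : ℂ) (h : p.re < 0) : G =ᶠ[𝓝 p] fun p => exp (l * p.re) * r p + ε * exp p.re :=
    (o.eventually_mem h).mono fun w hw => by simp only [hG]; rw [if_pos (show w.re < 0 from hw)]
  have Gc : Continuous G := by
    refine Continuous.add (continuous_iff_continuousAt.2 fun q => ?_) (by fun_prop)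
    rcases lt_trichotomy q.re 0 with h | h | h
    · exact (hh q h).1.continuousAt.congr ((o.eventually_mem h).mono fun w hw => (if_pos hw).symm)
    · rw [ContinuousAt, if_neg h.not_lt, ← nhdsWithin_univ, ← union_compl_self {p : ℂ | p.re < 0},
        nhdsWithin_union, tendsto_sup]
      refine ⟨?_, tendsto_const_nhds.congr' (eventually_mem_nhdsWithin.mono fun w hw => (if_neg hw).symm)⟩
      have := ((show Continuous fun p : ℂ => exp (l * p.re) by fun_prop).tendsto q |>.mono_left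
        nhdsWithin_le_nhds).mul (hb q h)
      rw [mul_zero] at this
      exact this.congr' (eventually_mem_nhdsWithin.mono fun w hw => (if_pos hw).symm)
    · exact continuousAt_const.congr (((isOpen_lt continuous_const (by fun_prop)).eventually_mem h).mono
        fun w hw => (if_neg (not_lt.2 (le_of_lt hw))).symm)
  have Gp : Function.Periodic G (2 * π * Complex.I) := fun p => by simp [hG, hp p]
  have t : Tendsto (fun x => exp (l * x) * C) atBot (𝓝 (0 * C)) :=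
    (tendsto_exp_atBot.comp (tendsto_id.const_mul_atBot l0)).mul_const C
  rw [zero_mul] at t
  obtain ⟨X, hX, X0⟩ := ((t.eventually (gt_mem_nhds e0)).and (eventually_lt_atBot p₀.re)).exists
  have cK : IsCompact (Icc X 0 ×ℂ Icc 0 (2 * π)) := isCompact_Icc.reProdIm isCompact_Icc
  obtain ⟨p, hp1, hm⟩ := cK.exists_isMaxOn ⟨0, by
    simp [Complex.mem_reProdIm]; exact ⟨by linarith, pi_pos.le⟩⟩ Gc.continuousOn
  have hm' (w : ℂ) (hw : w.re ∈ Icc X 0) : G w ≤ G p := by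
    rw [← Gp.sub_zsmul_eq (toIcoDiv two_pi_pos 0 w.im)]
    refine hm ⟨by simpa using hw, ?_⟩
    have := Ico_subset_Icc_self (sub_toIcoDiv_zsmul_mem_Ico two_pi_pos 0 w.im)
    simpa using this
  have g0 : 2 * ε < G p := by
    refine lt_of_lt_of_le ?_ (hm' p₀ ⟨X0.le, h0.le⟩)
    simp only [hG]
    rw [if_pos h0]
    linarith [mul_pos e0 (exp_pos p₀.re)]
  have x1 : ε * exp p.re ≤ ε := mul_le_of_le_one_right e0.le (exp_le_one_iff.2 hp1.1.2)
  have p0 : p.re < 0 := by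
    by_contra k
    simp only [hG] at g0
    rw [if_neg k] at g0; linarith
  have pX : X < p.re := hp1.1.1.lt_of_ne fun k => by
    simp only [hG] at g0
    rw [if_pos p0] at g0
    have := mul_le_mul_of_nonneg_left (hC p p0) (exp_pos (l * p.re)).le
    rw [k] at hX; linarith
  have ev : ∀ᶠ w in 𝓝 p, exp (l * w.re) * r w + ε * exp w.re ≤ G p := by
    filter_upwards [Ge p p0, Complex.continuous_re.continuousAt.eventually (Icc_mem_nhds pX p0)] with w a b
    exact a ▸ hm' w b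
  have := noharm (u := fun w => G p - ε * exp p.re * (1 - p.re) - ε * exp p.re * w.re - exp (l * w.re) * r w)
    (((harmonicAt_const _).sub (analyticAt_id.harmonicAt_re.const_smul (c := ε * exp p.re))).sub (hh p p0))
    (ev.mono fun w hw => by
      have := mul_le_mul_of_nonneg_left (add_one_le_exp (w.re - p.re)) (mul_pos e0 (exp_pos p.re)).le
      rw [mul_assoc ε _ (exp _), ← exp_add, add_sub_cancel] at this
      linarith) (by rw [(Ge p p0).self_of_nhds]; ring)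
  have k : Tendsto (fun y : ℝ => p - y) (𝓝[>] 0) (𝓝 p) :=
    (Continuous.tendsto' (by fun_prop) _ _ (by simp)).mono_left nhdsWithin_le_nhds
  obtain ⟨y, ⟨a, b⟩, y0⟩ := ((k.eventually (this.and ev)).and eventually_mem_nhdsWithin).exists
  have := mul_lt_mul_of_pos_left (add_one_lt_exp (neg_ne_zero.2 (ne_of_gt y0))) (mul_pos e0 (exp_pos p.re))
  rw [mul_assoc ε _ (exp _), ← exp_add] at this
  simp only [Complex.sub_re, Complex.ofReal_re] at a b
  rw [sub_eq_add_neg p.re] at a b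
  linarith

theorem result (ρ : ℝ) (h : 0 < ρ) : ∃ v, InU ρ v ∧ HSet v ≠ univ ∧ Minimal ρ v ∧
    (ρ : EReal) < lam (Complex.exp ⁻¹' HSet v) := by
  refine ⟨_, VU h, fun k => by simpa [VH h] using k.ge (mem_univ 1), fun ε e0 ⟨w, hw, hv⟩ => ?_, ?_⟩
  · obtain ⟨δ, d0, hδ⟩ := hw.1.2.2 0 (mem_univ _)
    have s0 : 0 < min (δ / 2) 1 := by positivity
    have := hδ _ ⟨s0, (min_le_left _ _).trans_lt (by linarith)⟩ (-(ε * min (δ / 2) 1 ^ ρ)) fun θ => by
      refine (hv _).trans_eq ?_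
      beta_reduce
      rw [V0 h (by simp [abs_of_pos s0])]
      simp [abs_of_pos s0]
    rw [hw.2.1] at this
    have := this.trans (EReal.sub_le_of_le_add (le_add_of_nonneg_right (EReal.coe_ennreal_nonneg _)))
    rw [EReal.coe_nonneg] at this
    linarith [mul_pos e0 (rpow_pos_of_pos s0 ρ)]
  · have e : Complex.exp ⁻¹' ball 0 1 = {p : ℂ | p.re < 0} := by ext p; simp [Complex.norm_exp]
    rw [VH h, e]
    refine (EReal.coe_lt_top ρ).trans_le (le_iInf₂ fun l l0 => le_iInf fun ⟨r, ⟨a, ⟨C, b⟩, c, d⟩, p, hp, k⟩ =>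
      absurd ?_ k)
    have d' (q : ℂ) (hq : q.re = 0) := d q (by rw [Complex.frontier_setOfPred_re_lt]; exact hq)
      ⟨univ, isOpen_univ, mem_univ _, fun p => p.re, subR Complex.continuous_re fun z _ => ⟨1, one_pos,
        fun s _ => (InnerProductSpace.HarmonicOnNhd.circleAverage_eq fun w _ => analyticAt_id.harmonicAt_re).ge⟩,
        fun p hp => EReal.coe_neg'.2 hp.1, by
          simpa [hq, Function.comp_def] using ((continuous_coe_real_ereal.comp Complex.continuous_re).tendsto q).mono_left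
            nhdsWithin_le_nhds⟩
    refine le_antisymm (maxp l0 a (fun p hp => (abs_le.1 (b p hp)).2) c d' hp) (neg_nonpos.1
      (maxp (r := fun p => -r p) (C := C) l0 (fun p => by simp [a p]) (fun p hp => by linarith [(abs_le.1 (b p hp)).1])
      (fun p hp => by simpa [Pi.neg_def] using (c p hp).neg) (fun q hq => by simpa using (d' q hq).neg) hp))

end Pool.Agent.Results.MP_784777_an.No
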